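import Pool.Agent.Helper75_HAR.Final

/-!
# Harary polynomials: a property for which almost all graphs are unique (MP_09e7c7_co)

There is a non-trivial graph property `P` such that almost all graphs `G` are `χ_P`-unique: all but a
proportion `exp (-c n)` of the graphs with vertex set `Fin n` are determined up to isomorphism by
their Harary polynomial.
-/

namespace Pool.Agent.Results.MP_09e7c7_co.AlmostAllUnique

open Filter Topology Pool.Agent.HAR

/-- There is a non-trivial graph property `P` and `c > 0` such that for all large `n` the number of
the graphs on `Fin n` which are not `χ_P`-unique is at most `exp (-c n)` times the number of all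
graphs on `Fin n`; in particular the proportion of the `χ_P`-unique graphs tends to `1`. -/
theorem result : ∃ P : GProp, P.Nontrivial ∧
    (∃ c : ℝ, 0 < c ∧ ∀ᶠ n : ℕ in atTop,
      (Nat.card {G : SimpleGraph (Fin n) // ¬ Unq P G} : ℝ) ≤
        Real.exp (-(c * n)) * Nat.card (SimpleGraph (Fin n))) ∧
    Tendsto (fun n : ℕ => (Nat.card {G : SimpleGraph (Fin n) // Unq P G} : ℝ) /
      Nat.card (SimpleGraph (Fin n))) atTop (𝓝 1) :=
  Pool.Agent.HAR.H75.main

end Pool.Agent.Results.MP_09e7c7_co.AlmostAllUnique
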