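import Pool.Agent.Helper94_MHP.MAI2
import Pool.Agent.Helper94_MHP.HCO
import Pool.Agent.Helper21_MHP.NOC
import Pool.Agent.MHP.Logic2

/-! Infinitely many pairs of mates for every graph property with dependent rows in its connection
matrix, in particular for every property which is definable in monadic second order logic and for
every property which is constant on the large graphs with a given induced subgraph. -/

namespace Pool.Agent.Results.MP_09e7c7_co.ConnectionRows

open Pool.Agent.HMT Pool.Agent.MHP

/-- For every `n ≥ n0` the graphs of order `n` which contain `D` as an induced subgraph are all in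
`P` or all not in `P`. -/
def ConstantAbove (P : GProp) (h : ℕ) (D : SimpleGraph (Fin h)) (n0 : ℕ) : Prop :=
  ∀ (V W : Type) [Finite V] [Finite W] (G : SimpleGraph V) (H : SimpleGraph W),
    n0 ≤ Nat.card V → Nat.card V = Nat.card W → Nonempty (D ↪g G) → Nonempty (D ↪g H) →
      (P.mem G ↔ P.mem H)

/-- Let `P` be a property of finite graphs (closed under isomorphism) such that
(1) `P` or the property `P.co` of the complements has dependent rows (`DepRows`), or
(2) `P` is definable in counting monadic second order logic with sets of edges, or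
(3) there are a graph `D` and a number `n0` such that for `n ≥ n0` the graphs of order `n` which
contain `D` as an induced subgraph are all in `P` or all not in `P`.
Then there are pairs of non-isomorphic graphs of the same, arbitrarily large, order with the same
Harary polynomial. -/
theorem result (P : GProp)
    (h : (∃ g n0 : ℕ, DepRows P g n0 ∨ DepRows P.co g n0) ∨
      (∃ φ : Fml 0 0 0, IsDefined φ P) ∨
      ∃ (k : ℕ) (D : SimpleGraph (Fin k)) (n0 : ℕ), ConstantAbove P k D n0) :
    ∀ N : ℕ, ∃ n, N ≤ n ∧ ∃ G H : SimpleGraph (Fin n),
      ¬ Nonempty (G ≃g H) ∧ harary P G = harary P H := by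
  have key : ∀ (Q : GProp) (g n0 : ℕ), DepRows Q g n0 → InfMates Q := fun Q g n0 h =>
    H94.mai2 H21.noc_plant (fun A M h Z hZ => H21.noc_comp A M h Z hZ) Q g n0 h
  have key0 : ∀ (Q : GProp) (g : ℕ), RowDep Q g → InfMates Q := fun Q g h =>
    key Q g 0 (H21.depRows_of_rowDep Q g h)
  have hfin : InfMates P := by
    rcases h with ⟨g, n0, h | h⟩ | ⟨φ, h⟩ | ⟨k, D, n0, h⟩
    · exact key P g n0 h
    · exact Pool.Agent.HMT.H84.cpl P (key P.co g n0 h)
    · exact key0 P 0 (Pool.Agent.MHP.Fin.mso P 0 φ (defines_of φ P h))
    · exact key0 P 0 (H94.hco H45.cis P k D n0 h)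
  exact hfin

end Pool.Agent.Results.MP_09e7c7_co.ConnectionRows
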