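import Pool.Agent.Helper23_MHP.RES
import Pool.Agent.MHP.All

/-! The generic graph property has infinitely many pairs of mates. -/

namespace Pool.Agent.Results.MP_09e7c7_co.GenericProperties

open Pool.Agent.HMT Pool.Agent.MHP

/-- The space of all graph properties is a Baire space; there is a dense `G_δ` subset `D` of it such
that every property in `D` has infinitely many pairs of mates. -/
theorem result : BaireSpace PropSpace ∧
    ∃ D : Set PropSpace, IsGδ D ∧ Dense D ∧ ∀ f ∈ D, InfMates (toProp f) :=
  ⟨H23.baire, H23.res Pool.Agent.MHP.Fin.mai⟩

end Pool.Agent.Results.MP_09e7c7_co.GenericProperties
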