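import Pool.Agent.Helper2_Mate.Final

/-! Infinitely many pairs of mates for every graph property `P` whose membership is constant on the
graphs of order `n` with a vertex cover of less than `3 log₂ n` vertices (or on their complements),
for every large `n`. -/

namespace Pool.Agent.Results.MP_09e7c7_co.MatesVertexCover

open Pool.Agent.Mate

theorem result : ∀ P : GProp, Blind P ∨ Blind P.co → InfMates P := by
  rintro P (h | h)
  · exact infMates_of_blind h
  · exact infMates_of_co (infMates_of_blind h)

end Pool.Agent.Results.MP_09e7c7_co.MatesVertexCover
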